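import Pool.Agent.Helper26.KN.Goals

/-! The numbers phi as coefficients of power series. -/

namespace KN.PkPHI

open Finset PowerSeries Pool.Agent.Helper97.RCK

theorem step_iter (w : ℝ) (b : ℕ → ℝ) (M j : ℕ) :
    ((step w)^[M] b) j = ∑ i ∈ range (M + 1), (M.choose i : ℝ) * (w ^ i * b (j + i)) := by
  have h := sum_pow_card w (Finset.univ : Finset (Fin M)) b j
  rw [Finset.card_univ, Fintype.card_fin] at h
  rw [← h]
  have h2 := Finset.sum_powerset_apply_card (fun m => w ^ m * b (j + m))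
    (x := (Finset.univ : Finset (Fin M)))
  rw [Finset.card_univ, Fintype.card_fin] at h2
  rw [h2]
  refine Finset.sum_congr rfl fun i _ => ?_
  rw [nsmul_eq_mul]

theorem coeff_Fk (lam : ℝ) (k : ℕ) : ∀ m : ℕ,
    coeff m ((⇑(d⁄dX ℝ))^[k] (Fs lam)) =
      lam ^ ((m + k) * (m + k - 1) / 2) / (m.factorial : ℝ) := by
  induction k with
  | zero =>
    intro m
    rw [Function.iterate_zero, id, Fs, coeff_mk, Nat.add_zero]
  | succ k ih =>
    intro m
    rw [Function.iterate_succ_apply', coeff_derivative, ih (m + 1)]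
    have h1 : m + 1 + k = m + (k + 1) := by ring
    rw [h1, Nat.factorial_succ, Nat.cast_mul, Nat.cast_add, Nat.cast_one]
    have h2 : (m.factorial : ℝ) ≠ 0 := by exact_mod_cast m.factorial_ne_zero
    have h3 : (m : ℝ) + 1 ≠ 0 := by positivity
    field_simp

theorem tri (n : ℕ) : (n + 1) * (n + 1 - 1) / 2 = n * (n - 1) / 2 + n := by
  have h1 : n + 1 - 1 = n := by omega
  rw [h1]
  cases n with
  | zero => rfl
  | succ n =>
    have h2 : n + 1 - 1 = n := by omega
    rw [h2]
    have h3 : (n + 1 + 1) * (n + 1) = (n + 1) * n + (n + 1) * 2 := by ring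
    rw [h3, Nat.add_mul_div_right _ _ (by norm_num : 0 < 2)]

theorem binom (w : ℝ) (m : ℕ) : (1 + w) ^ m / (m.factorial : ℝ) =
    ∑ i ∈ range (m + 1), w ^ i / (i.factorial : ℝ) * (1 / ((m - i).factorial : ℝ)) := by
  rw [add_comm 1 w, add_pow, Finset.sum_div]
  refine Finset.sum_congr rfl fun i hi => ?_
  have hi' : i ≤ m := by
    have := Finset.mem_range.1 hi
    omega
  rw [Nat.cast_choose ℝ hi', one_pow, mul_one]
  have h1 : (m.factorial : ℝ) ≠ 0 := by exact_mod_cast m.factorial_ne_zero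
  have h2 : (i.factorial : ℝ) ≠ 0 := by exact_mod_cast i.factorial_ne_zero
  have h3 : ((m - i).factorial : ℝ) ≠ 0 := by exact_mod_cast (m - i).factorial_ne_zero
  field_simp

theorem coeff_key (w : ℝ) (j m : ℕ) :
    coeff m ((⇑(d⁄dX ℝ))^[j + 1] (Fs (1 + w))) = (1 + w) ^ j *
      ∑ i ∈ range (m + 1), w ^ i / (i.factorial : ℝ) *
        coeff (m - i) ((⇑(d⁄dX ℝ))^[j + i] (Fs (1 + w))) := by
  rw [coeff_Fk]
  have h1 : m + (j + 1) = (m + j) + 1 := by ring
  rw [h1, tri, pow_add]
  have h2 : ∀ i ∈ range (m + 1), w ^ i / (i.factorial : ℝ) *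
        coeff (m - i) ((⇑(d⁄dX ℝ))^[j + i] (Fs (1 + w))) =
      (1 + w) ^ ((m + j) * (m + j - 1) / 2) *
        (w ^ i / (i.factorial : ℝ) * (1 / ((m - i).factorial : ℝ))) := by
    intro i hi
    have hi' : i ≤ m := by
      have := Finset.mem_range.1 hi
      omega
    rw [coeff_Fk]
    have h3 : m - i + (j + i) = m + j := by omega
    rw [h3]
    ring
  rw [Finset.sum_congr rfl h2, ← Finset.mul_sum, ← binom]
  rw [pow_add (1 + w) m j]
  ring

theorem coeff_prod (w : ℝ) (B : PowerSeries ℝ) (j M : ℕ) :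
    coeff M ((⇑(d⁄dX ℝ))^[j + 1] (Fs (1 + w)) * B) = (1 + w) ^ j *
      ∑ i ∈ range (M + 1), w ^ i / (i.factorial : ℝ) *
        coeff (M - i) ((⇑(d⁄dX ℝ))^[j + i] (Fs (1 + w)) * B) := by
  have hP : ∀ m ≤ M, coeff m (∑ i ∈ range (M + 1),
      C (w ^ i / (i.factorial : ℝ)) * (X ^ i * (⇑(d⁄dX ℝ))^[j + i] (Fs (1 + w)))) =
      ∑ i ∈ range (m + 1), w ^ i / (i.factorial : ℝ) *
        coeff (m - i) ((⇑(d⁄dX ℝ))^[j + i] (Fs (1 + w))) := by
    intro m hm
    rw [map_sum]
    have h1 : range (m + 1) ⊆ range (M + 1) := by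
      intro i hi
      rw [Finset.mem_range] at hi ⊢
      omega
    rw [← Finset.sum_subset h1]
    · refine Finset.sum_congr rfl fun i hi => ?_
      have hi' : i ≤ m := by
        have := Finset.mem_range.1 hi
        omega
      rw [coeff_C_mul, coeff_X_pow_mul', if_pos hi']
    · intro i _ hi
      have hi' : ¬ i ≤ m := by
        rw [Finset.mem_range] at hi
        omega
      rw [coeff_C_mul, coeff_X_pow_mul', if_neg hi', mul_zero]
  have h1 : coeff M ((⇑(d⁄dX ℝ))^[j + 1] (Fs (1 + w)) * B) = (1 + w) ^ j *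
      coeff M ((∑ i ∈ range (M + 1),
      C (w ^ i / (i.factorial : ℝ)) * (X ^ i * (⇑(d⁄dX ℝ))^[j + i] (Fs (1 + w)))) * B) := by
    rw [coeff_mul, coeff_mul, Finset.mul_sum]
    refine Finset.sum_congr rfl fun p hp => ?_
    have hp' : p.1 ≤ M := by
      have := Finset.HasAntidiagonal.mem_antidiagonal.1 hp
      omega
    rw [hP p.1 hp', coeff_key, mul_assoc]
  rw [h1, Finset.sum_mul, map_sum]
  refine congrArg (fun t : ℝ => (1 + w) ^ j * t) (Finset.sum_congr rfl fun i hi => ?_)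
  have hi' : i ≤ M := by
    have := Finset.mem_range.1 hi
    omega
  rw [mul_assoc, coeff_C_mul, mul_assoc, coeff_X_pow_mul', if_pos hi']

theorem Fs_const (lam : ℝ) : constantCoeff (Fs lam) = 1 := by
  rw [← coeff_zero_eq_constantCoeff_apply, Fs, coeff_mk]
  simp

theorem Fs_inv (lam : ℝ) : Fs lam * (Fs lam)⁻¹ = 1 := by
  refine PowerSeries.mul_inv_cancel _ ?_
  rw [Fs_const]
  exact one_ne_zero

theorem phic : G_PHI := by
  intro q w Z _ hZ N
  have hZ1 := hZ.1
  have hZ2 := hZ.2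
  induction N with
  | zero =>
    intro k hk
    have hk0 : k = 0 := by omega
    subst hk0
    rw [Function.iterate_zero, id, Fs_inv, one_mul, phi]
    rw [coeff_zero_eq_constantCoeff_apply, hZ1]
    simp
  | succ N ih =>
    have hsucc : ∀ j, j ≤ N → phi q w (N + 1) (j + 1) = ((N - j).factorial : ℝ) *
        coeff (N - j) (((⇑(d⁄dX ℝ))^[j + 1] (Fs (1 + w))) * (Fs (1 + w))⁻¹ * Z) := by
      intro j hj
      rw [phi, step_iter, mul_assoc, coeff_prod, mul_left_comm]
      refine congrArg (fun t : ℝ => (1 + w) ^ j * t) ?_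
      rw [Finset.mul_sum]
      refine Finset.sum_congr rfl fun i hi => ?_
      have hi' : i ≤ N - j := by
        have := Finset.mem_range.1 hi
        omega
      rw [ih (j + i) (by omega), Nat.cast_choose ℝ hi']
      have h0 : N - (j + i) = N - j - i := by omega
      rw [h0, mul_assoc ((⇑(d⁄dX ℝ))^[j + i] (Fs (1 + w)))]
      have h2 : (i.factorial : ℝ) ≠ 0 := by exact_mod_cast i.factorial_ne_zero
      have h3 : ((N - j - i).factorial : ℝ) ≠ 0 := by
        exact_mod_cast (N - j - i).factorial_ne_zero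
      field_simp
    intro k hk
    cases k with
    | zero =>
      have h1 := hsucc 0 (Nat.zero_le _)
      have h2 : phi q w (N + 1) 0 = q * phi q w (N + 1) 1 := by
        rw [phi, phi, pow_zero, one_mul, Nat.sub_zero]
      have h3 : (⇑(d⁄dX ℝ))^[0 + 1] (Fs (1 + w)) = d⁄dX ℝ (Fs (1 + w)) := rfl
      rw [Nat.sub_zero, h3] at h1
      rw [h2, show (1 : ℕ) = 0 + 1 from rfl, h1]
      have h4 := congrArg (coeff N) hZ2
      rw [coeff_derivative, coeff_C_mul, Hs] at h4
      rw [Function.iterate_zero, id, Fs_inv, one_mul, Nat.sub_zero, Nat.factorial_succ,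
        Nat.cast_mul, Nat.cast_add, Nat.cast_one]
      have h5 : q * ((N.factorial : ℝ) *
          coeff N (d⁄dX ℝ (Fs (1 + w)) * (Fs (1 + w))⁻¹ * Z)) = (N.factorial : ℝ) *
          (q * coeff N (d⁄dX ℝ (Fs (1 + w)) * (Fs (1 + w))⁻¹ * Z)) := by ring
      rw [h5, ← h4]
      ring
    | succ j =>
      have h1 := hsucc j (by omega)
      have h2 : N + 1 - (j + 1) = N - j := by omega
      rw [h2]
      exact h1

end KN.PkPHI
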